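import Pool.Agent.Helper69.TPF.St3

/-!
# TPF module WRE: a finite wreath product which detects the vanishing
-/

set_option autoImplicit false

open scoped commutatorElement

namespace Pool.Agent.Helper51.TPF

open Pool.Agent.Helper69.TPF

/-- functions `X → G → A` together with an element of `G` which translates them -/
@[ext] structure Wr (X G A : Type) where
  f : X → G → A
  m : G

section

variable {X G A : Type} [Group G] [Group A]

instance : Mul (Wr X G A) := ⟨fun a b => ⟨fun k v => a.f k v * b.f k (a.m⁻¹ * v), a.m * b.m⟩⟩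

instance : One (Wr X G A) := ⟨⟨fun _ _ => 1, 1⟩⟩

instance : Inv (Wr X G A) := ⟨fun a => ⟨fun k v => (a.f k (a.m * v))⁻¹, a.m⁻¹⟩⟩

theorem mul_f (a b : Wr X G A) (k : X) (v : G) : (a * b).f k v = a.f k v * b.f k (a.m⁻¹ * v) := rfl

theorem mul_m (a b : Wr X G A) : (a * b).m = a.m * b.m := rfl

theorem one_f (k : X) (v : G) : (1 : Wr X G A).f k v = 1 := rfl

theorem one_m : (1 : Wr X G A).m = 1 := rfl

theorem inv_f (a : Wr X G A) (k : X) (v : G) : (a⁻¹).f k v = (a.f k (a.m * v))⁻¹ := rfl

theorem inv_m (a : Wr X G A) : (a⁻¹).m = a.m⁻¹ := rfl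

instance : Group (Wr X G A) := Group.ofLeftAxioms
  (by
    intro a b c
    ext k v
    · simp only [mul_f, mul_m, mul_inv_rev, mul_assoc]
    · simp only [mul_m, mul_assoc])
  (by
    intro a
    ext k v
    · simp only [mul_f, one_f, one_m, inv_one, one_mul]
    · simp only [mul_m, one_m, one_mul])
  (by
    intro a
    ext k v
    · simp only [mul_f, inv_f, inv_m, one_f, inv_inv, inv_mul_cancel]
    · simp only [mul_m, inv_m, one_m, inv_mul_cancel])

omit [Group G] [Group A] in
theorem wr_finite [Finite X] [Finite G] [Finite A] : Finite (Wr X G A) :=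
  Finite.of_injective (fun a : Wr X G A => (a.f, a.m)) (by
    intro a b h
    have h1 : a.f = b.f := congrArg Prod.fst h
    have h2 : a.m = b.m := congrArg Prod.snd h
    cases a; cases b; simp_all)

/-- the projection -/
def prj (X G A : Type) [Group G] [Group A] : Wr X G A →* G where
  toFun := fun a => a.m
  map_one' := rfl
  map_mul' := fun _ _ => rfl

/-- the embedding of `G` -/
def emb (X G A : Type) [Group G] [Group A] : G →* Wr X G A where
  toFun := fun g => ⟨fun _ _ => 1, g⟩
  map_one' := rfl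
  map_mul' := fun a b => by
    ext k v
    · simp [mul_f]
    · simp [mul_m]

end

section core

variable {J A C : Type} [CommGroup A] [Group C] [Fintype C] [Fintype J] [Finite A]
  [DecidableEq J] [DecidableEq (MulAut A)]

/-- powers with exponents in `ZMod (Nat.card A)` -/
noncomputable def pw (a : A) (x : ZMod (Nat.card A)) : A := a ^ x.val

theorem pw_mul (a b : A) (x : ZMod (Nat.card A)) : pw (a * b) x = pw a x * pw b x := by
  unfold pw; rw [mul_pow]

theorem pw_one (x : ZMod (Nat.card A)) : pw (1 : A) x = 1 := by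
  unfold pw; rw [one_pow]

theorem pw_inv (a : A) (x : ZMod (Nat.card A)) : pw (a⁻¹) x = (pw a x)⁻¹ := by
  unfold pw; rw [inv_pow]

theorem pw_add (a : A) (x y : ZMod (Nat.card A)) : pw a (x + y) = pw a x * pw a y := by
  have hne : NeZero (Nat.card A) := ⟨Nat.card_pos.ne'⟩
  unfold pw
  rw [ZMod.val_add, pow_mod_natCard, pow_add]

theorem pw_prod {κ : Type} (s : Finset κ) (g : κ → A) (x : ZMod (Nat.card A)) :
    pw (∏ k ∈ s, g k) x = ∏ k ∈ s, pw (g k) x := by
  unfold pw; rw [Finset.prod_pow]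

theorem pw_ite (a : A) (P : Prop) [Decidable P] : pw a (if P then 1 else 0) = if P then a else 1 := by
  have hne : NeZero (Nat.card A) := ⟨Nat.card_pos.ne'⟩
  split_ifs with h
  · unfold pw
    by_cases h1 : Nat.card A = 1
    · have h2 : Subsingleton A := (Nat.card_eq_one_iff_unique.1 h1).1
      exact Subsingleton.elim _ _
    · have h3 : Fact (1 < Nat.card A) := ⟨by have := Nat.card_pos (α := A); omega⟩
      rw [ZMod.val_one, pow_one]
  · unfold pw
    rw [ZMod.val_zero, pow_zero]

omit [Finite A] in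
theorem fold_one (ω' : C →* MulAut A) (F : C → A)
    (h : ∀ y : MulAut A, ∏ v : C, (if ω' v = y then F v else 1) = 1) : ∏ v : C, ω' v (F v) = 1 := by
  have h1 : ∀ v ∈ (Finset.univ : Finset C), ω' v ∈ (Finset.univ : Finset C).image ω' := fun v hv =>
    Finset.mem_image_of_mem _ hv
  rw [← Finset.prod_fiberwise_of_maps_to h1]
  refine Finset.prod_eq_one fun y _ => ?_
  have h2 : ∏ v ∈ (Finset.univ : Finset C) with ω' v = y, ω' v (F v) =
      ∏ v ∈ (Finset.univ : Finset C) with ω' v = y, y (F v) := by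
    refine Finset.prod_congr rfl fun v hv => ?_
    rw [(Finset.mem_filter.1 hv).2]
  rw [h2, ← map_prod, Finset.prod_filter, h y, map_one]

theorem core (x : J → C) (ω' : C →* MulAut A)
    (hh : ∀ (j₀ : J) (y : MulAut A), ∃ h : C → ZMod (Nat.card A), ∀ j u,
      h (x j * u) = h u + if j = j₀ ∧ ω' u = y then 1 else 0)
    (φ : J → C → A) (hφ : ∀ v, ∏ j, (φ j v * (φ j ((x j)⁻¹ * v))⁻¹) = 1) (j₀ : J) :
    ∏ v : C, ω' v (φ j₀ v) = 1 := by
  apply fold_one
  intro y
  obtain ⟨h, hh⟩ := hh j₀ y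
  have e1 : ∏ v : C, pw (∏ j, (φ j v * (φ j ((x j)⁻¹ * v))⁻¹)) (h v) = 1 := by
    refine Finset.prod_eq_one fun v _ => ?_
    rw [hφ v, pw_one]
  have e2 : ∏ v : C, pw (∏ j, (φ j v * (φ j ((x j)⁻¹ * v))⁻¹)) (h v) =
      ∏ j, ∏ v : C, (if j = j₀ ∧ ω' v = y then (φ j v)⁻¹ else 1) := by
    simp only [pw_prod]
    rw [Finset.prod_comm]
    refine Finset.prod_congr rfl fun j _ => ?_
    simp only [pw_mul, pw_inv]
    rw [Finset.prod_mul_distrib]
    have e3 : ∏ v : C, (pw (φ j ((x j)⁻¹ * v)) (h v))⁻¹ = ∏ v : C, (pw (φ j v) (h (x j * v)))⁻¹ := by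
      refine (Fintype.prod_equiv (Equiv.mulLeft (x j)) _ _ fun v => ?_).symm
      simp
    rw [e3, ← Finset.prod_mul_distrib]
    refine Finset.prod_congr rfl fun v _ => ?_
    rw [hh j v, pw_add, pw_ite]
    split_ifs
    · rw [mul_inv, mul_inv_cancel_left]
    · rw [mul_one, mul_inv_cancel]
  rw [e1] at e2
  have e4 : ∏ j, ∏ v : C, (if j = j₀ ∧ ω' v = y then (φ j v)⁻¹ else 1) =
      ∏ v : C, (if ω' v = y then (φ j₀ v)⁻¹ else 1) := by
    rw [Finset.prod_eq_single j₀]
    · refine Finset.prod_congr rfl fun v _ => ?_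
      simp
    · intro j _ hj
      refine Finset.prod_eq_one fun v _ => ?_
      rw [if_neg (fun h => hj h.1)]
    · intro h
      exact absurd (Finset.mem_univ _) h
  rw [e4] at e2
  have e5 : ∏ v : C, (if ω' v = y then (φ j₀ v)⁻¹ else 1) =
      (∏ v : C, (if ω' v = y then φ j₀ v else 1))⁻¹ := by
    rw [← Finset.prod_inv_distrib]
    refine Finset.prod_congr rfl fun v _ => ?_
    split_ifs
    · rfl
    · rw [inv_one]
  rw [e5] at e2
  exact inv_eq_one.1 e2.symm

end core

section maps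

variable {A C : Type} [CommGroup A] [Group C] [Fintype C]

/-- the homomorphism from the wreath product to the holomorph -/
noncomputable def PiH (ω' : C →* MulAut A) :
    Wr Unit C A →* A ⋊[MonoidHom.id (MulAut A)] MulAut A where
  toFun := fun w => ⟨∏ v : C, ω' v (w.f () v), ω' w.m⟩
  map_one' := by
    ext
    · simp [one_f]
    · simp [one_m]
  map_mul' := fun a b => by
    refine SemidirectProduct.ext ?_ ?_
    · rw [SemidirectProduct.mul_left]
      simp only [mul_f, map_mul, Finset.prod_mul_distrib, MonoidHom.id_apply]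
      congr 1
      rw [map_prod]
      refine (Fintype.prod_equiv (Equiv.mulLeft a.m) _ _ fun v => ?_).symm
      simp
    · simp [mul_m]

omit [Fintype C] in
theorem prod_list_f (l : List (Wr Unit C A)) (h : ∀ w ∈ l, w.m = 1) :
    l.prod.m = 1 ∧ ∀ v, l.prod.f () v = (l.map fun w => w.f () v).prod := by
  induction l with
  | nil => exact ⟨rfl, fun v => rfl⟩
  | cons w l ih =>
    obtain ⟨h1, h2⟩ := ih fun w' hw' => h w' (List.mem_cons_of_mem _ hw')
    have h3 := h w List.mem_cons_self
    refine ⟨?_, fun v => ?_⟩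
    · rw [List.prod_cons, mul_m, h1, h3, one_mul]
    · rw [List.prod_cons, mul_f, h3, inv_one, one_mul, h2 v, List.map_cons, List.prod_cons]

omit [Fintype C] in
theorem comm_f (a b : Wr Unit C A) (ha : a.m = 1) :
    ⁅a, b⁆.m = 1 ∧ ∀ v, ⁅a, b⁆.f () v = a.f () v * (a.f () (b.m⁻¹ * v))⁻¹ := by
  refine ⟨?_, fun v => ?_⟩
  · rw [commutatorElement_def]
    simp only [mul_m, inv_m, ha, inv_one, mul_one, one_mul, mul_inv_cancel]
  · rw [commutatorElement_def]
    simp only [mul_f, mul_m, inv_f, inv_m, ha, inv_one, mul_one, one_mul, mul_inv_cancel_left]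
    have h : ∀ x y z : A, x * y * z⁻¹ * y⁻¹ = x * z⁻¹ := fun x y z => by
      rw [mul_assoc, mul_assoc, mul_comm z⁻¹, mul_inv_cancel_left]
    exact h _ _ _

end maps

theorem h_step {J M : Type} [Group M] (n : ℕ) (j j₁ : J) (w y : M)
    (u a : Wr (J × M) M (Multiplicative (ZMod n)))
    [∀ (k : J × M) (v : M), Decidable (j = k.1 ∧ w⁻¹ * v = k.2)] [Decidable (j = j₁ ∧ u.m = y)]
    (ha : a = ⟨fun k v => Multiplicative.ofAdd (if j = k.1 ∧ w⁻¹ * v = k.2 then 1 else 0), w⟩) :
    Multiplicative.toAdd ((a * u).f (j₁, y) (a * u).m) =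
      Multiplicative.toAdd (u.f (j₁, y) u.m) + if j = j₁ ∧ u.m = y then 1 else 0 := by
  rw [mul_f, mul_m, toAdd_mul, inv_mul_cancel_left, add_comm]
  subst ha
  simp only [toAdd_ofAdd]
  by_cases h : j = j₁ ∧ u.m = y
  · simp [h.1, h.2]
  · have h' : ¬ (j = j₁ ∧ w⁻¹ * (w * u.m) = y) := by rwa [inv_mul_cancel_left]
    rw [if_neg h, if_neg h']

open Classical in
theorem cWRE : St_WRE := by
  intro J A _ _ _ ω
  have hJ : Fintype J := Fintype.ofFinite J
  have hA : Fintype A := Fintype.ofFinite A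
  have hne : NeZero (Nat.card A) := ⟨Nat.card_pos.ne'⟩
  have hM : Finite (MulAut A) := Finite.of_injective (fun a : MulAut A => (a : A → A))
    (fun a b h => MulEquiv.ext fun x => congrFun h x)
  have hC : Finite (Wr (J × MulAut A) (MulAut A) (Multiplicative (ZMod (Nat.card A)))) := wr_finite
  have hCf : Fintype (Wr (J × MulAut A) (MulAut A) (Multiplicative (ZMod (Nat.card A)))) :=
    Fintype.ofFinite _
  have hW : Finite (Wr Unit (Wr (J × MulAut A) (MulAut A) (Multiplicative (ZMod (Nat.card A)))) A) :=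
    wr_finite
  set C := Wr (J × MulAut A) (MulAut A) (Multiplicative (ZMod (Nat.card A))) with hCdef
  set ω' : C →* MulAut A := prj _ _ _ with hω'
  set π' : FreeGroup J →* C := FreeGroup.lift fun i =>
    ⟨fun k v => Multiplicative.ofAdd
      (if i = k.1 ∧ (ω (FreeGroup.of i))⁻¹ * v = k.2 then 1 else 0), ω (FreeGroup.of i)⟩ with hπ'
  have hωπ : ∀ z, ω' (π' z) = ω z := by
    intro z
    have : ω'.comp π' = ω := by
      ext1 i
      simp [hω', hπ', prj]
    rw [← this]; rfl
  refine ⟨Wr Unit C A, C, inferInstance, inferInstance, hW, hC, prj _ _ _, π',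
    fun y => ⟨fun _ => Pi.mulSingle 1 y, 1⟩, fun z => emb Unit C A (π' z), PiH ω', ?_, ?_, ?_, ?_, ?_, ?_⟩
  · intro w w' hw hw'
    have h1 : w.m = 1 := hw
    have h2 : w'.m = 1 := hw'
    refine Wr.ext ?_ ?_
    · funext k v
      rw [mul_f, mul_f, h1, h2, inv_one, one_mul, mul_comm]
    · rw [mul_m, mul_m, h1, h2]
  · intro y
    rfl
  · intro z
    rfl
  · intro y
    refine SemidirectProduct.ext ?_ ?_
    · show ∏ v : C, ω' v ((Pi.mulSingle 1 y : C → A) v) = y
      rw [Finset.prod_eq_single (1 : C)]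
      · simp
      · intro v _ hv
        rw [Pi.mulSingle_eq_of_ne hv, map_one]
      · intro h
        exact absurd (Finset.mem_univ _) h
    · show ω' 1 = 1
      rw [map_one]
  · intro z
    refine SemidirectProduct.ext ?_ ?_
    · show ∏ v : C, ω' v (1 : A) = 1
      simp
    · show ω' (π' z) = ω z
      exact hωπ z
  · intro L hL hLm φ ψ hφ hψ hprod j₀
    have hφ' : ∀ j, (φ j).m = 1 := hφ
    have hψ' : ∀ j, (ψ j).m = π' (FreeGroup.of j) := hψ
    have h1 := prod_list_f (L.map fun j => ⁅φ j, ψ j⁆) (by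
      intro w hw
      obtain ⟨j, _, rfl⟩ := List.mem_map.1 hw
      exact (comm_f _ _ (hφ' j)).1)
    have h2 : ∀ v : C, ∏ j, ((φ j).f () v * ((φ j).f () ((π' (FreeGroup.of j))⁻¹ * v))⁻¹) = 1 := by
      intro v
      have h3 := h1.2 v
      rw [hprod, one_f, List.map_map] at h3
      have h4 : L.toFinset = Finset.univ := by
        ext j; simp [hLm j]
      rw [← h4, List.prod_toFinset _ hL]
      rw [h3]
      congr 1
      refine List.map_congr_left fun j _ => ?_
      show _ = ⁅φ j, ψ j⁆.f () v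
      rw [(comm_f _ _ (hφ' j)).2 v, hψ' j]
    have h5 := core (fun j => π' (FreeGroup.of j)) ω' (by
      intro j₁ y
      refine ⟨fun u => Multiplicative.toAdd (u.f (j₁, y) u.m), fun j u => ?_⟩
      have h6 : π' (FreeGroup.of j) = ⟨fun k v => Multiplicative.ofAdd
        (if j = k.1 ∧ (ω (FreeGroup.of j))⁻¹ * v = k.2 then 1 else 0), ω (FreeGroup.of j)⟩ := by
        rw [hπ']
        exact FreeGroup.lift_apply_of
      exact h_step _ j j₁ (ω (FreeGroup.of j)) y u _ h6) (fun j => (φ j).f ()) h2 j₀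
    refine SemidirectProduct.ext ?_ ?_
    · exact h5
    · show ω' (φ j₀).m = 1
      rw [hφ' j₀, map_one]

end Pool.Agent.Helper51.TPF
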